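import Pool.Agent.H.MP_ccba9a_nt.B

namespace Pool.Agent.Results.MP_35679e_nt.No

open MeasureTheory

/-- the Weyl sum -/
noncomputable def f (k X : ℕ) (α : Fin k → ℝ) : ℂ := ∑ x ∈ Finset.Icc 1 X,
  Complex.exp (2 * (Real.pi : ℂ) * Complex.I * ∑ j : Fin k, (α j : ℂ) * (x : ℂ) ^ ((j : ℕ) + 1))

theorem result : ∃ (k : ℕ) (s ε : ℝ), 1 ≤ k ∧ (k : ℝ) * (k + 1) / 4 + 1 ≤ s ∧ 0 < ε ∧
    ∀ C : ℝ, ∃ X : ℕ, 1 ≤ X ∧ ∃ B : Set (Fin k → ℝ), MeasurableSet B ∧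
      B ⊆ Set.pi Set.univ (fun _ => Set.Ico (0 : ℝ) 1) ∧
      C * (X : ℝ) ^ ε * ((X : ℝ) ^ s * (volume B).toReal + (X : ℝ) ^ (2 * s - (k : ℝ) * (k + 1) / 2))
        < ∫ α in B, ‖f k X α‖ ^ (2 * s) := by
  refine ⟨2, 11 / 4, 1 / 64, by norm_num, by norm_num, by norm_num, fun C => ?_⟩
  by_contra h
  push Not at h
  exact Pool.Agent.H.MP_ccba9a_nt.main ⟨C, fun X h1 B h2 h3 _ => h X h1 B h2 h3⟩

end Pool.Agent.Results.MP_35679e_nt.No
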